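import Pool.Agent.Helper35.OctE

open Pool.Agent.Helper35.Oct

namespace Pool.Agent.Results.MP_247e0b_an.OctahedralityFails

/-- Octahedrality of `X` does not pass to the completed projective tensor product `X ⊗ Y`,
not even for a three-dimensional space `Y`.  Here `X = ℓ_∞^4(ℓ₁(ℝ))`. -/
theorem result : ∃ (X Y : Type) (_ : NormedAddCommGroup X) (_ : NormedSpace ℝ X)
    (_ : NormedAddCommGroup Y) (_ : NormedSpace ℝ Y),
    CompleteSpace X ∧ CompleteSpace Y ∧ Module.finrank ℝ Y = 3 ∧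
      IsOctahedral X ∧ ¬ IsOctahedral (ProjTensorProduct X Y) := by
  have hfin : FiniteDimensional ℝ Oct3 :=
    inferInstanceAs (FiniteDimensional ℝ (Fin 3 → ℝ))
  have hrank : Module.finrank ℝ Oct3 = 3 := Module.finrank_fin_fun ℝ
  have hnt : Nontrivial (lp (fun _ : ℝ => ℝ) 1) := by
    refine ⟨⟨lp.single 1 (0 : ℝ) (1 : ℝ), 0, fun h => ?_⟩⟩
    have h1 : ‖(lp.single 1 (0 : ℝ) (1 : ℝ) : lp (fun _ : ℝ => ℝ) 1)‖ = 0 := by
      rw [h, norm_zero]
    rw [lp.norm_single (by norm_num)] at h1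
    simp at h1
  exact ⟨Fin 4 → lp (fun _ : ℝ => ℝ) 1, Oct3, inferInstance, inferInstance, inferInstance,
    inferInstance, inferInstance, FiniteDimensional.complete ℝ Oct3, hrank,
    octahedral_pi octahedral_l1, not_octahedral_tensor _⟩

end Pool.Agent.Results.MP_247e0b_an.OctahedralityFails
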